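import Pool.Agent.W587.MX.Stm

/-! Part T1 of project MX: uniqueness of the analytic branch. -/

set_option autoImplicit false

namespace Pool.Agent.W831.MX

open Pool.Agent.W587.MX Set Filter Topology Metric

theorem t1_uniq : T1_UNIQ := by
  intro X _ f a0 Z g b t0 hf hZ hg hb hg0 hb0 heq
  obtain ⟨hZa, hZe⟩ := hZ
  have h0 := hZe.self_of_nhds
  let F : ℂ → ℂ := fun z => z * deriv f z / f z
  have hfa : AnalyticAt ℂ f (Z a0) := hf.analyticAt _
  have hdfa : AnalyticAt ℂ (deriv f) (Z a0) := hfa.deriv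
  have hFa : AnalyticAt ℂ F (Z a0) := (analyticAt_id.mul hdfa).div hfa h0.1
  have hFZ : ∀ᶠ a in 𝓝 a0, F (Z a) = a := by
    filter_upwards [hZe] with a ha
    change Z a * deriv f (Z a) / f (Z a) = a
    rw [ha.2, mul_div_assoc, div_self ha.1, mul_one]
  have hd : deriv F (Z a0) * deriv Z a0 = 1 := by
    have h1 : HasDerivAt (F ∘ Z) (deriv F (Z a0) * deriv Z a0) a0 :=
      hFa.differentiableAt.hasDerivAt.comp a0 hZa.differentiableAt.hasDerivAt
    have h2 : HasDerivAt (F ∘ Z) 1 a0 := by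
      refine (hasDerivAt_id a0).congr_of_eventuallyEq ?_
      filter_upwards [hFZ] with a ha
      exact ha
    exact h1.unique h2
  have hF' : deriv F (Z a0) ≠ 0 := left_ne_zero_of_mul_eq_one hd
  have hs : HasStrictDerivAt F (deriv F (Z a0)) (Z a0) := hFa.hasStrictDerivAt
  have hs2 := hs.hasStrictFDerivAt_equiv hF'
  have hinj : ∀ᶠ z in 𝓝 (Z a0), hs2.localInverse F _ _ (F z) = z := hs2.eventually_left_inverse
  have hg1 : Tendsto g (𝓝 t0) (𝓝 (Z a0)) := by
    have := hg.tendsto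
    rwa [hg0] at this
  have hb1 : Tendsto b (𝓝 t0) (𝓝 a0) := by
    have := hb.tendsto
    rwa [hb0] at this
  have hZb : Tendsto (fun t => Z (b t)) (𝓝 t0) (𝓝 (Z a0)) := hZa.continuousAt.tendsto.comp hb1
  have hfne : ∀ᶠ z in 𝓝 (Z a0), f z ≠ 0 := hfa.continuousAt.eventually_ne h0.1
  filter_upwards [hg1.eventually hinj, hZb.eventually hinj, hb1.eventually hFZ,
    hg1.eventually hfne, heq] with t h1 h2 h3 h4 h5
  have h6 : F (g t) = b t := by
    change g t * deriv f (g t) / f (g t) = b t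
    rw [h5, mul_div_assoc, div_self h4, mul_one]
  rw [← h1, ← h2, h6, h3]

end Pool.Agent.W831.MX
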